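import Mathlib
import Pool.Agent.R253.IT.Last

open Complex Filter Topology

namespace Pool.Agent.Results.MP_f48be4_an.RadialSeries

/-- `f` is an inner function: an analytic self-map of the open unit disc whose radial limits
`lim_{r → 1} f (r e^{it})` exist and have modulus `1` for almost every `t` (Lebesgue measure). -/
def IsInner (f : ℂ → ℂ) : Prop :=
  DifferentiableOn ℂ f (Metric.ball 0 1) ∧ (∀ z : ℂ, ‖z‖ < 1 → ‖f z‖ < 1) ∧
    ∀ᵐ t : ℝ, ∃ ζ : ℂ, ‖ζ‖ = 1 ∧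
      Tendsto (fun r : ℝ => f (r * exp (t * I))) (𝓝[<] 1) (𝓝 ζ)

/-- `f` is a rotation of the disc. -/
def IsRotation (f : ℂ → ℂ) : Prop := ∃ c : ℂ, ‖c‖ = 1 ∧ ∀ z : ℂ, ‖z‖ < 1 → f z = c * z

/-- **Abel's theorem fails for series of iterates of an inner function.** There are an inner
function `f` with `f 0 = 0`, not a rotation, a point `ξ` of the unit circle at which all the iterates
`f^n`, `n ≥ 1`, have radial limits `ℓ n`, and coefficients `a n`, `n ≥ 1`, such that the series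
`F = ∑_{n ≥ 1} a n f^n` converges (absolutely at every point and locally uniformly) to an analytic
function on the disc and `∑_{n ≥ 1} a n ℓ n` converges, but `F (r ξ)` has no limit as `r → 1`; it is
even unbounded. -/
theorem result : ∃ f : ℂ → ℂ, IsInner f ∧ f 0 = 0 ∧ ¬ IsRotation f ∧
    ∃ (ξ : ℂ) (ℓ : ℕ → ℂ), ‖ξ‖ = 1 ∧
      (∀ n : ℕ, 1 ≤ n → Tendsto (fun r : ℝ => f^[n] (r * ξ)) (𝓝[<] 1) (𝓝 (ℓ n))) ∧
      ∃ (a : ℕ → ℂ) (F : ℂ → ℂ), DifferentiableOn ℂ F (Metric.ball 0 1) ∧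
        (∀ z : ℂ, ‖z‖ < 1 → HasSum (fun n : ℕ => a (n+1) * f^[n+1] z) (F z)) ∧
        TendstoLocallyUniformlyOn
          (fun (N : ℕ) (z : ℂ) => ∑ n ∈ Finset.range N, a (n+1) * f^[n+1] z) F atTop
          (Metric.ball 0 1) ∧
        (∃ s : ℂ, Tendsto (fun N : ℕ => ∑ n ∈ Finset.range N, a (n+1) * ℓ (n+1)) atTop (𝓝 s)) ∧
        (¬ ∃ L : ℂ, Tendsto (fun r : ℝ => F (r * ξ)) (𝓝[<] 1) (𝓝 L)) ∧
        (∀ C r₀ : ℝ, r₀ < 1 → ∃ r : ℝ, r₀ < r ∧ r < 1 ∧ C < ‖F (r * ξ)‖) :=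
  Pool.Agent.R253.IT.main

end Pool.Agent.Results.MP_f48be4_an.RadialSeries
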